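import Pool.Agent.R305.SK.Res

set_option autoImplicit false

/-!
# Sharp constants for even-order antiderivatives of the zeta argument

On the Riemann hypothesis, with the iterated integrals `S_n` of `S(t) = (1/π) arg ζ(1/2 + i t)`
normalised by the constants `δ_n` (every `S_n` has mean value zero, which is the first part), the
bounds with the constants `A_n^±` hold for every even `n ≥ 2` (second part).
-/

namespace Pool.Agent.Results.MP_155064_nt.SharpEvenConstants

open MeasureTheory Filter Topology Set Pool.Agent.R305.SK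

theorem result (hRH : RiemannHypothesis) :
    (∀ n : ℕ, Tendsto (fun T : ℝ => 1 / T * ∫ t in (0:ℝ)..T, Sn n t) atTop (𝓝 0)) ∧
    ∀ n : ℕ, Even n → 2 ≤ n → ∀ ε : ℝ, 0 < ε → ∀ᶠ t : ℝ in atTop,
      -(Aminus n + ε) * Lam n t ≤ Sn n t ∧ Sn n t ≤ (Aplus n + ε) * Lam n t :=
  ⟨fun n => mean_zero hRH n, fun _ hn hn2 _ hε => main_bound hRH hn hn2 hε⟩

end Pool.Agent.Results.MP_155064_nt.SharpEvenConstants
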